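import Pool.Agent.H88.L.Y129.TB.Poly

/-!
# The approximation lemma for polynomials over a perfectoid field, with several gradings
-/

open MvPolynomial WittVector Pool.Agent.Y129.TA

set_option linter.unusedSectionVars false

namespace Pool.Agent.Y129.TB.X271TM

variable {p : ℕ} [hp : Fact p.Prime] {C F : Type} [Field C] [Field F] {σ : Type} [Fintype σ]

/-- A polynomial of which the values satisfy `Q(a t) = a ^ δ Q(t)` may be replaced by its component of
degree `δ`. -/
theorem eval_componentW (T : TiltPair p C F) {r : ℕ} (w : σ → Fin r → ℕ) (ϖ : T.O) (hϖ0 : ϖ ≠ 0)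
    (hϖ1 : T.absF ϖ < 1) {Q : MvPolynomial σ F} {δ : Fin r → ℕ} {t : σ → F}
    (h : ∀ a : Fin r → T.O, eval (fun i => (∏ κ, (a κ : F) ^ w i κ) * t i) Q =
      (∏ κ, (a κ : F) ^ δ κ) * eval t Q) :
    eval t (weightedHomogeneousComponent w δ Q) = eval t Q := by
  classical
  set R : MvPolynomial (Fin r) F := ∑ α ∈ Q.support,
    monomial (Finsupp.equivFunOnFinite.symm (Finsupp.weight w α)) (coeff α Q * ∏ i, t i ^ α i)
    with hR
  set R' : MvPolynomial (Fin r) F := monomial (Finsupp.equivFunOnFinite.symm δ) (eval t Q) with hR'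
  have hw : ∀ (α : σ →₀ ℕ) (κ : Fin r), Finsupp.weight w α κ = ∑ i, α i * w i κ := by
    intro α κ
    rw [Finsupp.weight_apply, Finsupp.sum_fintype _ _ (fun i => by exact zero_smul ℕ _),
      Finset.sum_apply]
    rfl
  have h1 : ∀ a : Fin r → F, eval a R = eval (fun i => (∏ κ, a κ ^ w i κ) * t i) Q := by
    intro a
    rw [hR, map_sum, eval_eq']
    refine Finset.sum_congr rfl fun α _ => ?_
    rw [eval_monomial, Finsupp.prod_fintype _ _ (fun i => by exact pow_zero _), mul_assoc]
    congr 1
    simp only [mul_pow, Finset.prod_mul_distrib]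
    rw [mul_comm]
    congr 1
    simp only [Finsupp.equivFunOnFinite_symm_apply_apply, hw]
    simp only [← Finset.prod_pow_eq_pow_sum, ← Finset.prod_pow]
    rw [Finset.prod_comm]
    refine Finset.prod_congr rfl fun i _ => Finset.prod_congr rfl fun κ _ => ?_
    rw [← pow_mul, mul_comm]
  have h2 : R = R' := by
    refine MvPolynomial.funext_set (fun _ => Set.range fun j : ℕ => ((ϖ : F)) ^ j) (fun _ => ?_) ?_
    · have hinj : Function.Injective fun j : ℕ => ((ϖ : F)) ^ j := by
        intro i j hij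
        have h2 : T.absF ϖ ^ i = T.absF ϖ ^ j := by
          rw [← map_pow, ← map_pow]; exact congrArg T.absF hij
        have h3 : 0 < T.absF ϖ := T.absF.pos fun h => hϖ0 (Subtype.ext h)
        exact (pow_right_strictAnti₀ h3 hϖ1).injective h2
      exact Set.infinite_range_of_injective hinj
    · intro x hx
      choose j hj using fun κ => hx κ (Set.mem_univ κ)
      have hx' : x = fun κ => ((ϖ ^ j κ : T.O) : F) := by
        funext κ
        rw [← hj κ]
        push_cast
        rfl
      rw [h1, hx', h fun κ => ϖ ^ j κ, hR', eval_monomial,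
        Finsupp.prod_fintype _ _ (fun i => by exact pow_zero _), mul_comm]
      rfl
  have h3 := congrArg (MvPolynomial.coeff (Finsupp.equivFunOnFinite.symm δ)) h2
  rw [hR', coeff_monomial, if_pos rfl, hR, coeff_sum] at h3
  rw [← h3, weightedHomogeneousComponent_apply, map_sum, Finset.sum_filter]
  refine Finset.sum_congr rfl fun α _ => ?_
  rw [coeff_monomial]
  by_cases h4 : Finsupp.weight w α = δ
  · rw [if_pos h4, if_pos (by rw [h4]), eval_monomial,
      Finsupp.prod_fintype _ _ (fun i => by exact pow_zero _)]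
  · rw [if_neg h4, if_neg]
    intro h5
    exact h4 (Finsupp.equivFunOnFinite.symm.injective h5)

variable [CharP F p] (T : Tilting p C F) {E : Type} [Field E] [Algebra E F]
  {K : Type} [Field K] [Algebra K C]

theorem map_lift_smulW {r : ℕ} (w : σ → Fin r → ℕ) {h : MvPolynomial σ K} {d : Fin r → ℕ}
    (hh : IsWeightedHomogeneous w h d)
    (H : (σ →₀ ℕ) → WittVector p (OE T.toTiltPair E)) (a : Fin r → T.O) (t : σ → T.O) :
    WittVector.map (ev T E fun i => (∏ κ, a κ ^ w i κ) * t i) (lift T h H) =
      teichmuller p (∏ κ, a κ ^ d κ) * WittVector.map (ev T E t) (lift T h H) := by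
  rw [map_lift, map_lift, Finset.mul_sum]
  refine Finset.sum_congr rfl fun α hα => ?_
  have h1 : Finsupp.weight w α = d := hh (mem_support_iff.1 hα)
  have h3 : ∏ i, ((∏ κ, a κ ^ w i κ) * t i) ^ α i = (∏ κ, a κ ^ d κ) * ∏ i, t i ^ α i := by
    simp only [mul_pow, Finset.prod_mul_distrib]
    congr 1
    rw [← h1]
    simp only [← Finset.prod_pow]
    rw [Finset.prod_comm]
    refine Finset.prod_congr rfl fun κ _ => ?_
    rw [Finsupp.weight_apply, Finsupp.sum_fintype _ _ (fun i => by exact zero_smul ℕ _),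
      Finset.sum_apply, ← Finset.prod_pow_eq_pow_sum]
    refine Finset.prod_congr rfl fun i _ => ?_
    rw [← pow_mul, Pi.smul_apply, smul_eq_mul, mul_comm]
  rw [h3, map_mul]
  ring

theorem weightedHomogeneousComponent_map {R S M : Type} [CommRing R] [CommRing S]
    [AddCommMonoid M] (w : σ → M) (f : R →+* S) (D : M)
    (Q : MvPolynomial σ R) :
    weightedHomogeneousComponent w D (MvPolynomial.map f Q) =
      MvPolynomial.map f (weightedHomogeneousComponent w D Q) := by
  classical
  ext α
  rw [coeff_weightedHomogeneousComponent, coeff_map, coeff_map, coeff_weightedHomogeneousComponent]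
  split_ifs
  · rfl
  · rw [map_zero]

/-- The approximation lemma. -/
theorem approxW [IsAlgClosed F] (T : Tilting p C F) (B : BaseField T K E) {r : ℕ}
    (w : σ → Fin r → ℕ) {h : MvPolynomial σ K}
    {d : Fin r → ℕ} (hh : IsWeightedHomogeneous w h d) {ε : ℝ} (hε : 0 < ε) :
    ∃ (M : ℕ) (g : MvPolynomial σ E), IsWeightedHomogeneous w g (p ^ M • d) ∧ ∀ t : σ → F,
      (∀ i, T.absF (t i) ≤ 1) → aeval t g = 0 → T.absK (aeval (fun i => T.sharp (t i)) h) ≤ ε := by
  classical
  have hpp : 0 < T.absK p := T.absK.pos T.p_ne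
  -- the coefficients become integral
  obtain ⟨b, hb⟩ : ∃ b : ℝ, ∀ α ∈ h.support, T.absK (algebraMap K C (coeff α h)) ≤ b :=
    ⟨∑ α ∈ h.support, T.absK (algebraMap K C (coeff α h)), fun α hα =>
      Finset.single_le_sum (f := fun α => T.absK (algebraMap K C (coeff α h)))
        (fun α _ => T.absK.nonneg _) hα⟩
  obtain ⟨m, hm⟩ : ∃ m : ℕ, T.absK p ^ m * max b 1 < 1 := by
    obtain ⟨m, hm⟩ := exists_pow_lt_of_lt_one (show (0 : ℝ) < 1 / max b 1 by positivity) T.p_lt
    refine ⟨m, ?_⟩
    rwa [lt_div_iff₀ (by positivity)] at hm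
  let h' : MvPolynomial σ K := MvPolynomial.C ((p : K) ^ m) * h
  have hh' : IsWeightedHomogeneous w h' d := by
    have h1 := (isWeightedHomogeneous_C w ((p : K) ^ m)).mul hh
    rwa [zero_add] at h1
  have hint : ∀ α, T.absK (algebraMap K C (coeff α h')) ≤ 1 := by
    intro α
    rw [coeff_C_mul, map_mul, map_mul, map_pow, map_natCast, map_pow]
    by_cases hα : α ∈ h.support
    · refine (mul_le_mul_of_nonneg_left ((hb α hα).trans (le_max_left b 1))
        (pow_nonneg hpp.le m)).trans hm.le
    · rw [notMem_support_iff.1 hα, map_zero, map_zero, mul_zero]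
      exact zero_le_one
  choose H hH using fun α => B.surj (coeff α h') (hint α)
  obtain ⟨c, hc⟩ := exists_pow_lt_of_lt_one (show 0 < ε * T.absK p ^ m by positivity) T.p_lt
  -- the element `q` with `θ(q) = p`
  obtain ⟨ϖ₀, hϖ₀⟩ := B.val
  let ϖ : T.O := ⟨algebraMap E F ϖ₀, by
    change T.absF _ ≤ 1
    rw [hϖ₀]
    exact T.p_lt.le⟩
  have hϖ : T.absF ϖ = T.absK p := hϖ₀
  have hϖF : (ϖ : F) ≠ 0 := by
    intro h0
    rw [h0, map_zero] at hϖ
    exact hpp.ne hϖ
  let ϖ' : OE T.toTiltPair E := ⟨ϖ, ϖ₀, rfl⟩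
  obtain ⟨s, hs⟩ := B.mem (teichmuller p ϖ')
  rw [map_teichmuller] at hs
  have hs1 : T.θ (teichmuller p ϖ) = algebraMap K C s := hs
  rw [T.θ_teich] at hs1
  have hsne : algebraMap K C s ≠ 0 := by
    rw [← hs1]
    exact T.toTiltPair.sharp_ne hϖF
  have hp' : T.absK (algebraMap K C ((p : K) / s)) ≤ 1 := by
    rw [map_div₀, map_div₀, map_natCast, ← hs1, T.abs_sharp, hϖ, div_self hpp.ne']
  obtain ⟨v₀, hv₀⟩ := B.surj ((p : K) / s) hp'
  have hq : T.θ (teichmuller p ϖ * WittVector.map (OE T.toTiltPair E).subtype v₀) = p := by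
    rw [map_mul, hv₀, T.θ_teich, hs1, map_div₀, map_natCast]
    exact mul_div_cancel₀ _ hsne
  -- the chain
  let q : WittVector p (polyFun T E σ) := WittVector.map (constFun T E σ) (teichmuller p ϖ' * v₀)
  have hqt : ∀ t : σ → T.O, WittVector.map (ev T E t) q =
      teichmuller p ϖ * WittVector.map (OE T.toTiltPair E).subtype v₀ := by
    intro t
    change WittVector.map (ev T E t) (WittVector.map (constFun T E σ) _) = _
    rw [map_map', ev_const, map_mul, map_teichmuller]
    rfl
  choose next hnext using fun x : WittVector p (polyFun T E σ) => Step.exists q x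
  let Y : ℕ → WittVector p (polyFun T E σ) := fun j => next^[j] (lift T h' H)
  have hY : ∀ j, Step q (Y j) (Y (j + 1)) := by
    intro j
    change Step _ (next^[j] _) (next^[j + 1] _)
    rw [Function.iterate_succ_apply']
    exact hnext _
  have hYt : ∀ (t : σ → T.O) j,
      Step (teichmuller p ϖ * WittVector.map (OE T.toTiltPair E).subtype v₀)
        (WittVector.map (ev T E t) (Y j)) (WittVector.map (ev T E t) (Y (j + 1))) := fun t j => by
    have h1 := (hY j).map (ev T E t)
    rwa [hqt] at h1
  have hsc : ∀ (a : Fin r → T.O) (t : σ → T.O) j,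
      WittVector.map (ev T E fun i => (∏ κ, a κ ^ w i κ) * t i) (Y j) =
      teichmuller p (∏ κ, a κ ^ d κ) * WittVector.map (ev T E t) (Y j) := by
    intro a t j
    induction j with
    | zero => exact map_lift_smulW T w hh' H a t
    | succ j ih =>
      have h1 := hYt (fun i => (∏ κ, a κ ^ w i κ) * t i) j
      rw [ih] at h1
      exact h1.unique ((hYt t j).mul (∏ κ, a κ ^ d κ))
  obtain ⟨M, Q, hQ⟩ := ((Y c).coeff 0).2
  have hval : ∀ t : σ → T.O, (((WittVector.map (ev T E t) (Y c)).coeff 0 : T.O) : F) ^ p ^ M =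
      aeval (fun i => ((t i : T.O) : F)) Q := fun t => hQ t
  refine ⟨M, weightedHomogeneousComponent w (p ^ M • d) Q,
    weightedHomogeneousComponent_isWeightedHomogeneous _ _, fun t ht h0 => ?_⟩
  let t' : σ → T.O := fun i => ⟨t i, ht i⟩
  have hcomp : aeval t (weightedHomogeneousComponent w (p ^ M • d) Q) = aeval t Q := by
    have h5 : eval t (weightedHomogeneousComponent w (p ^ M • d)
        (MvPolynomial.map (algebraMap E F) Q)) =
        eval t (MvPolynomial.map (algebraMap E F) Q) := by
      refine eval_componentW T.toTiltPair w ϖ (fun h => hϖF (by rw [h]; rfl))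
        (by rw [hϖ]; exact T.p_lt) fun a => ?_
      have h1 := hval fun i => (∏ κ, a κ ^ w i κ) * t' i
      have h2 := hval t'
      rw [hsc a t' c, mul_coeff_zero, teichmuller_coeff_zero, Subring.coe_mul, mul_pow, h2] at h1
      rw [eval_map, eval_map, ← aeval_def, ← aeval_def]
      have h3 : (∏ κ, (a κ : F) ^ (p ^ M • d) κ) = ((∏ κ, a κ ^ d κ : T.O) : F) ^ p ^ M := by
        push_cast
        rw [← Finset.prod_pow]
        refine Finset.prod_congr rfl fun κ _ => ?_
        rw [Pi.smul_apply, smul_eq_mul, mul_comm, pow_mul]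
      rw [h3]
      refine Eq.trans ?_ h1.symm
      congr 1
      congr 1
      funext i
      push_cast
      rfl
    rw [weightedHomogeneousComponent_map, eval_map, eval_map, ← aeval_def, ← aeval_def] at h5
    exact h5
  rw [hcomp] at h0
  have h1 : (WittVector.map (ev T E t') (Y c)).coeff 0 = 0 := by
    have h2 := hval t'
    have h3 : aeval (fun i => ((t' i : T.O) : F)) Q = 0 := h0
    rw [h3] at h2
    exact Subtype.ext (pow_eq_zero_iff (pow_pos hp.out.pos M).ne' |>.1 h2)
  have h2 : T.absK (T.θ (WittVector.map (ev T E t') (Y 0))) ≤ T.absK p ^ c := by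
    by_contra hlt
    push Not at hlt
    exact chain_ne hϖ hq (Y := fun j => WittVector.map (ev T E t') (Y j)) (hYt t') hlt h1
  have h3 : T.θ (WittVector.map (ev T E t') (Y 0)) = aeval (fun i => T.sharp (t i)) h' :=
    θ_lift T h' H hH t'
  rw [h3, map_mul, aeval_C, map_mul, map_pow, map_pow, map_natCast] at h2
  have h4 : T.absK p ^ m * T.absK (aeval (fun i => T.sharp (t i)) h) ≤ T.absK p ^ m * ε := by
    rw [mul_comm _ ε]
    exact h2.trans hc.le
  exact le_of_mul_le_mul_left h4 (pow_pos hpp m)

end Pool.Agent.Y129.TB.X271TM
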