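import Pool.Agent.H88.L.W476.TP.Stm
import Pool.Agent.H88.L.Y129.TB.Final

/-!
# Images of multiprojective varieties: definitions
-/

set_option autoImplicit false

namespace Pool.Agent.X271.TN

open MvPolynomial

/-- The coordinates of the product of the projective spaces of dimensions `m κ`, `κ < r`. -/
abbrev Crd {r : ℕ} (m : Fin r → ℕ) : Type := (κ : Fin r) × Fin (m κ + 1)

/-- `P` is multihomogeneous of multidegree `d`: all its monomials have degree `d κ` in the coordinates
of the factor `κ`. -/
def MultiHom {r : ℕ} {m : Fin r → ℕ} {K : Type} [Field K] (P : MvPolynomial (Crd m) K)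
    (d : Fin r → ℕ) : Prop :=
  ∀ α ∈ P.support, ∀ κ, ∑ i, α ⟨κ, i⟩ = d κ

/-- `z` consists of homogeneous coordinates of a point of the product of projective spaces. -/
def IsPt {r : ℕ} {m : Fin r → ℕ} {K : Type} [Field K] (z : Crd m → K) : Prop :=
  ∀ κ, ∃ i, z ⟨κ, i⟩ ≠ 0

/-- The cone over the image under `f` of the set of the common zeros of the `h j` over `C` in the
product of projective spaces. -/
def mimage (C : Type) [Field C] {K : Type} [Field K] [Algebra K C] {r n c : ℕ} {m : Fin r → ℕ}
    (h : Fin c → MvPolynomial (Crd m) K) (f : Fin (n + 1) → MvPolynomial (Crd m) K) :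
    Set (Fin (n + 1) → C) :=
  {x | x = 0 ∨ ∃ z : Crd m → C, IsPt z ∧ (∀ j, aeval z (h j) = 0) ∧ ∀ i, x i = aeval z (f i)}

/-- The `f i` have no common zero over `C` on the set of the common zeros of the `h j`. -/
def BaseFree (C : Type) [Field C] {K : Type} [Field K] [Algebra K C] {r n c : ℕ} {m : Fin r → ℕ}
    (h : Fin c → MvPolynomial (Crd m) K) (f : Fin (n + 1) → MvPolynomial (Crd m) K) : Prop :=
  ∀ z : Crd m → C, IsPt z → (∀ j, aeval z (h j) = 0) → ∃ i, aeval z (f i) ≠ 0

/-- The multidegrees `a_j` and `d` copies of the multidegree `D` can be assigned to factors in which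
they are positive, with at most `m κ` of them assigned to the factor `κ`. -/
def Positive {r c : ℕ} (m : Fin r → ℕ) (a : Fin c → Fin r → ℕ) (D : Fin r → ℕ) (d : ℕ) : Prop :=
  ∃ τ : Fin c ⊕ Fin d → Fin r, (∀ j, 0 < a j (τ (Sum.inl j))) ∧ (∀ k, 0 < D (τ (Sum.inr k))) ∧
    ∀ κ, (Finset.univ.filter fun x => τ x = κ).card ≤ m κ

end Pool.Agent.X271.TN
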