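import Pool.Agent.H88.L.X271.TmKey
import Pool.Agent.H88.L.X271.TmDef

/-!
# Approximation of images of multiprojective complete intersections
-/

set_option autoImplicit false
set_option linter.unusedSectionVars false

namespace Pool.Agent.X271.TN

open MvPolynomial Pool.Agent.W476.TP Pool.Agent.W356.TP
open Pool.Agent.Y129.TA (Tilting TiltPair DimGE DimLE IsForm small exists_pos_le
  eval_smul_of_homogeneous form_zero)
open Pool.Agent.Y129.TB (BaseField IsConeOver InTube Approximable DimLEOver form_map)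
open Pool.Agent.Y129.TB.X271TM (approxW)

variable {p : ℕ} [hp : Fact p.Prime] {C F K E : Type} [Field C] [Field F] [CharP F p] [Field K]
  [Field E] [Algebra K C] [Algebra E F] {r n c : ℕ} {m : Fin r → ℕ}

theorem eval_YY (L : Type) [Field L] (i : ∀ κ, Fin (m κ + 1)) (v : Sig m ⊕ Fin (n + 1) → L) :
    eval v (YY m L n i) = ∏ κ, v (Sum.inl ⟨κ, i κ⟩) := by
  unfold YY
  rw [map_prod]
  simp only [eval_X]

theorem YY_zero (L : Type) [Field L] (i : ∀ κ, Fin (m κ + 1)) (v : Sig m ⊕ Fin (n + 1) → L)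
    (h : ¬ Rel fun s => v (Sum.inl s)) : eval v (YY m L n i) = 0 := by
  unfold Pool.Agent.W476.TP.Rel at h
  push Not at h
  obtain ⟨κ, hκ⟩ := h
  rw [eval_YY]
  exact Finset.prod_eq_zero (Finset.mem_univ κ) (hκ (i κ))

theorem exists_scale (T : TiltPair p C F) (f : Fin (n + 1) → MvPolynomial (Sig m) K) :
    ∃ s : K, s ≠ 0 ∧ ∀ i α, T.absK (algebraMap K C (coeff α (MvPolynomial.C s * f i))) ≤ 1 := by
  classical
  have hpp : 0 < T.absK p := T.absK.pos T.p_ne
  have hb : ∀ i, ∃ b : ℝ, ∀ α, T.absK (algebraMap K C (coeff α (f i))) ≤ b := by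
    intro i
    refine ⟨∑ α ∈ (f i).support, T.absK (algebraMap K C (coeff α (f i))), fun α => ?_⟩
    by_cases hα : α ∈ (f i).support
    · exact Finset.single_le_sum (f := fun α => T.absK (algebraMap K C (coeff α (f i))))
        (fun α _ => T.absK.nonneg _) hα
    · rw [notMem_support_iff.1 hα, map_zero, map_zero]
      exact Finset.sum_nonneg fun α _ => T.absK.nonneg _
  choose b hb using hb
  obtain ⟨k, hk⟩ : ∃ k : ℕ, T.absK p ^ k * max (∑ i, |b i|) 1 < 1 := by
    obtain ⟨k, hk⟩ := exists_pow_lt_of_lt_one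
      (show (0 : ℝ) < 1 / max (∑ i, |b i|) 1 by positivity) T.p_lt
    refine ⟨k, ?_⟩
    rwa [lt_div_iff₀ (by positivity)] at hk
  have hpK : (p : K) ≠ 0 := by
    intro h0
    apply T.p_ne
    have := congrArg (algebraMap K C) h0
    rwa [map_natCast, map_zero] at this
  refine ⟨(p : K) ^ k, pow_ne_zero _ hpK, fun i α => ?_⟩
  rw [coeff_C_mul, map_mul, map_mul, map_pow, map_natCast, map_pow]
  refine le_trans (mul_le_mul_of_nonneg_left ?_ (pow_nonneg hpp.le k)) hk.le
  refine (hb i α).trans ((le_abs_self _).trans (le_trans ?_ (le_max_left _ _)))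
  exact Finset.single_le_sum (f := fun i => |b i|) (fun i _ => abs_nonneg _) (Finset.mem_univ i)

/-- the cone over the image -/
def imX (C : Type) [Field C] [Algebra K C] (h : Fin c → MvPolynomial (Sig m) K)
    (f : Fin (n + 1) → MvPolynomial (Sig m) K) : Set (Fin (n + 1) → C) :=
  {x | x = 0 ∨ ∃ z : Sig m → C, Rel z ∧ (∀ j, aeval z (h j) = 0) ∧ ∀ i, x i = aeval z (f i)}

/-- **The core theorem.** -/
theorem core [IsAlgClosed C] [IsAlgClosed F] (T : Tilting p C F) (B : BaseField T K E)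
    {D : Fin r → ℕ} (hD : D ≠ 0)
    {h : Fin c → MvPolynomial (Sig m) K} {a : Fin c → Fin r → ℕ} (hh : ∀ j, MH (h j) (a j))
    {f : Fin (n + 1) → MvPolynomial (Sig m) K} (hf : ∀ i, MH (f i) D)
    (h0 : ∀ z : Sig m → C, Rel z → (∀ j, aeval z (h j) = 0) → ∃ i, aeval z (f i) ≠ 0)
    {d : ℕ} (τ : Fin c ⊕ Fin d → Fin r) (hτ1 : ∀ j, 0 < a j (τ (Sum.inl j)))
    (hτ2 : ∀ k, 0 < D (τ (Sum.inr k)))
    (hτ3 : ∀ κ, (Finset.univ.filter fun x => τ x = κ).card ≤ m κ)
    {dq : ℕ} (q : Fin dq → MvPolynomial (Fin (n + 1)) K) (hq : ∀ j, IsForm (q j))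
    (hq0 : ∀ y ∈ imX C h f, (∀ j, aeval y (q j) = 0) → y = 0)
    (R : ℕ) (P : Fin R → MvPolynomial (Fin (n + 1)) K) (DP : Fin R → ℕ)
    (hPD : ∀ k, (P k).IsHomogeneous (DP k)) (hPX : ∀ k, ∀ x ∈ imX C h f, aeval x (P k) = 0)
    (ε : ℝ) (hε : 0 < ε) :
    ∃ δ : ℝ, 0 < δ ∧ ∃ Y : Set (Fin (n + 1) → F), IsConeOver E Y ∧ DimGE Y d ∧
      (∀ y ∈ Y, ∀ k, InTube T.toTiltPair (P k) (DP k) ε y) ∧
      ∀ (g : Fin dq → MvPolynomial (Fin (n + 1)) E) (Dg : Fin dq → ℕ),
        (∀ j, (g j).IsHomogeneous (Dg j)) →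
        (∀ j (t : Fin (n + 1) → F), (∀ i, T.absF (t i) ≤ 1) → aeval t (g j) = 0 →
          T.absK (aeval (fun i => T.sharp (t i)) (q j)) ≤ δ) →
        ∀ y ∈ Y, (∀ j, aeval y (g j) = 0) → y = 0 := by
  classical
  obtain ⟨s, hs, hs1⟩ := exists_scale T.toTiltPair f
  set f1 : Fin (n + 1) → MvPolynomial (Sig m) K := fun i => MvPolynomial.C s * f i with hf1
  have hsC : algebraMap K C s ≠ 0 := (map_ne_zero _).2 hs
  have hf1D : ∀ i, MH (f1 i) D := by
    intro i
    have h1 := (isWeightedHomogeneous_C (wt m) s).mul (hf i)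
    rwa [zero_add] at h1
  have hf1e : ∀ (z : Sig m → C) i, aeval z (f1 i) = algebraMap K C s * aeval z (f i) := by
    intro z i
    rw [hf1]
    simp only [map_mul, aeval_C]
  -- homogeneous polynomials at the points `f1 z`
  have hhom : ∀ {Q : MvPolynomial (Fin (n + 1)) K} {DQ : ℕ}, Q.IsHomogeneous DQ →
      ∀ (b : C) (x : Fin (n + 1) → C), aeval (fun i => b * x i) Q = b ^ DQ * aeval x Q := by
    intro Q DQ hQ b x
    rw [aeval_eq, aeval_eq]
    exact eval_smul_of_homogeneous (hQ.map _) b x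
  have hPz : ∀ k (z : Sig m → C), Rel z → (∀ j, aeval z (h j) = 0) →
      aeval (fun i => aeval z (f1 i)) (P k) = 0 := by
    intro k z hz hz0
    have h1 := hPX k (fun i => aeval z (f i)) (Or.inr ⟨z, hz, hz0, fun i => rfl⟩)
    have h2 := hhom (hPD k) (algebraMap K C s) (fun i => aeval z (f i))
    rw [h1, mul_zero] at h2
    simp only [← hf1e] at h2
    exact h2
  have hqz : ∀ (z : Sig m → C), Rel z → (∀ j, aeval z (h j) = 0) →
      (∀ j, aeval (fun i => aeval z (f1 i)) (q j) = 0) → False := by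
    intro z hz hz0 hzq
    have h1 : (fun i => aeval z (f i)) = (0 : Fin (n + 1) → C) := by
      refine hq0 _ (Or.inr ⟨z, hz, hz0, fun i => rfl⟩) fun j => ?_
      obtain ⟨Dj, hDj, hj⟩ := hq j
      have h2 := hhom hj (algebraMap K C s) (fun i => aeval z (f i))
      simp only [← hf1e] at h2
      rw [hzq j] at h2
      exact (mul_eq_zero.1 h2.symm).resolve_left (pow_ne_zero _ hsC)
    obtain ⟨i, hi⟩ := h0 z hz hz0
    exact hi (congrFun h1 i)
  -- evaluation of the polynomials over `C`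
  have e1 : ∀ (v : Sig m ⊕ Fin (n + 1) → C) (Q : MvPolynomial (Sig m) K),
      eval v (rename Sum.inl (MvPolynomial.map (algebraMap K C) Q)) =
        aeval (fun s => v (Sum.inl s)) Q := by
    intro v Q
    rw [eval_rename, aeval_eq]
    rfl
  have e2 : ∀ (v : Sig m ⊕ Fin (n + 1) → C) (Q : MvPolynomial (Fin (n + 1)) K),
      eval v (rename Sum.inr (MvPolynomial.map (algebraMap K C) Q)) =
        aeval (fun s => v (Sum.inr s)) Q := by
    intro v Q
    rw [eval_rename, aeval_eq]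
    rfl
  -- (i)
  have s1 : ∀ i : ∀ κ, Fin (m κ + 1), ∃ δ : ℝ, 0 < δ ∧ ∀ v : Sig m ⊕ Fin (n + 1) → C,
      (∀ i, T.absK (v i) ≤ 1) →
      (∀ k : Fin c ⊕ Fin (n + 1), T.absK (eval v (Sum.elim
        (fun j => rename Sum.inl (MvPolynomial.map (algebraMap K C) (h j)))
        (fun l => rename Sum.inl (MvPolynomial.map (algebraMap K C) (f1 l))) k)) ≤ δ) →
      T.absK (eval v (YY m C n i)) ≤ 1 / 2 := by
    intro i
    refine small T.ultraK _ _ (fun v hv => ?_) (by norm_num)
    refine YY_zero C i v fun hrel => ?_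
    obtain ⟨l, hl⟩ := h0 _ hrel fun j => by
      have := hv (Sum.inl j)
      rwa [Sum.elim_inl, e1] at this
    have h3 := hv (Sum.inr l)
    rw [Sum.elim_inr, e1, hf1e] at h3
    exact (mul_ne_zero hsC hl) h3
  choose δ₁ hδ₁ hs1' using s1
  obtain ⟨δa, hδa, hδa'⟩ := exists_pos_le δ₁ hδ₁
  -- (iii)
  have s2 : ∀ i : ∀ κ, Fin (m κ + 1), ∃ δ : ℝ, 0 < δ ∧ ∀ v : Sig m ⊕ Fin (n + 1) → C,
      (∀ i, T.absK (v i) ≤ 1) →
      (∀ k : Fin c ⊕ (Fin (n + 1) ⊕ Fin dq), T.absK (eval v (Sum.elim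
        (fun j => rename Sum.inl (MvPolynomial.map (algebraMap K C) (h j)))
        (Sum.elim (fun l => X (Sum.inr l) -
          rename Sum.inl (MvPolynomial.map (algebraMap K C) (f1 l)))
          (fun j => rename Sum.inr (MvPolynomial.map (algebraMap K C) (q j)))) k)) ≤ δ) →
      T.absK (eval v (YY m C n i)) ≤ 1 / 2 := by
    intro i
    refine small T.ultraK _ _ (fun v hv => ?_) (by norm_num)
    refine YY_zero C i v fun hrel => ?_
    refine hqz _ hrel (fun j => ?_) fun j => ?_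
    · have := hv (Sum.inl j)
      rwa [Sum.elim_inl, e1] at this
    · have h3 := hv (Sum.inr (Sum.inr j))
      rw [Sum.elim_inr, Sum.elim_inr, e2] at h3
      have h4 : (fun l => v (Sum.inr l)) =
          fun l => aeval (fun s => v (Sum.inl s)) (f1 l) := by
        funext l
        have h5 := hv (Sum.inr (Sum.inl l))
        rw [Sum.elim_inr, Sum.elim_inl, map_sub, eval_X, e1] at h5
        exact sub_eq_zero.1 h5
      rwa [h4] at h3
  choose δ₂ hδ₂ hs2' using s2
  obtain ⟨δb, hδb, hδb'⟩ := exists_pos_le δ₂ hδ₂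
  -- (ii)
  set c0 : ℝ := min δa 1 with hc0
  have hc00 : 0 < c0 := lt_min hδa one_pos
  have s3 : ∀ x : Fin R × (∀ κ, Fin (m κ + 1)), ∃ δ : ℝ, 0 < δ ∧
      ∀ v : Sig m ⊕ Fin (n + 1) → C, (∀ i, T.absK (v i) ≤ 1) →
      (∀ k : Fin c ⊕ Fin (n + 1), T.absK (eval v (Sum.elim
        (fun j => rename Sum.inl (MvPolynomial.map (algebraMap K C) (h j)))
        (fun l => X (Sum.inr l) - rename Sum.inl (MvPolynomial.map (algebraMap K C) (f1 l)))
          k)) ≤ δ) →
      T.absK (eval v (rename Sum.inr (MvPolynomial.map (algebraMap K C) (P x.1)) *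
        YY m C n x.2)) ≤ ε * c0 ^ DP x.1 := by
    intro x
    refine small T.ultraK _ _ (fun v hv => ?_) (by positivity)
    rw [map_mul]
    by_cases hrel : Rel fun s => v (Sum.inl s)
    · have h4 : (fun l => v (Sum.inr l)) =
          fun l => aeval (fun s => v (Sum.inl s)) (f1 l) := by
        funext l
        have h5 := hv (Sum.inr l)
        rw [Sum.elim_inr, map_sub, eval_X, e1] at h5
        exact sub_eq_zero.1 h5
      rw [e2, h4, hPz x.1 _ hrel fun j => ?_, zero_mul]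
      have := hv (Sum.inl j)
      rwa [Sum.elim_inl, e1] at this
    · rw [YY_zero C x.2 v hrel, mul_zero]
  choose δ₃ hδ₃ hs3' using s3
  obtain ⟨δc, hδc, hδc'⟩ := exists_pos_le δ₃ hδ₃
  set δ : ℝ := min (min δa (1 / 2)) (min δb δc) with hδ
  have hδ0 : 0 < δ := lt_min (lt_min hδa (by norm_num)) (lt_min hδb hδc)
  have hδ1 : δ < 1 := lt_of_le_of_lt ((min_le_left _ _).trans (min_le_right _ _)) (by norm_num)
  have hda : δ ≤ δa := (min_le_left _ _).trans (min_le_left _ _)
  have hdb : δ ≤ δb := (min_le_right _ _).trans (min_le_left _ _)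
  have hdc : δ ≤ δc := (min_le_right _ _).trans (min_le_right _ _)
  -- the approximations
  choose Mh H hH hHa using fun j => approxW T B (wt m) (hh j) hδ0
  choose tG G hG hGa using fun i => monE T B hD (hf1D i) hδ0 hδ1
  have KEY : ∀ {z : Sig m → F}, Rel z → ∀ {y : Fin (n + 1) → F}, (∀ j, aeval z (H j) = 0) →
      (∀ i, ev (mp F (G i)) z (y i) = 0) →
      ∃ (μ : F) (z' : Sig m → F) (i : ∀ κ, Fin (m κ + 1)), μ ≠ 0 ∧ Nm T.toTiltPair z' i ∧
      (∀ l, T.absF (μ * y l) ≤ 1) ∧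
      (∀ j, T.absK (aeval (fun s => T.sharp (z' s)) (h j)) ≤ δ) ∧
      (∀ l, T.absK (T.sharp (μ * y l) - aeval (fun s => T.sharp (z' s)) (f1 l)) ≤ δ) ∧
      ∃ l, c0 < T.absF (μ * y l) := by
    intro z hz y h1 h2
    obtain ⟨μ, z', i, hμ, hn, h3, h4, h5⟩ := key T hD hf1D hs1 hδ1 hH hHa hG hGa hz h1 h2
    refine ⟨μ, z', i, hμ, hn, h3, h4, h5, ?_⟩
    by_contra hno
    push Not at hno
    have h6 := hs1' i (Sum.elim (fun s => T.sharp (z' s)) 0) (by
      rintro (s | l)
      · rw [Sum.elim_inl, T.abs_sharp]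
        exact hn.1 s
      · rw [Sum.elim_inr, Pi.zero_apply, map_zero]
        exact zero_le_one) (by
      rintro (j | l)
      · rw [Sum.elim_inl, e1]
        exact (h4 j).trans (hda.trans (hδa' i))
      · rw [Sum.elim_inr, e1]
        refine le_trans ?_ (hδa' i)
        have h7 : aeval (fun s => T.sharp (z' s)) (f1 l) =
            T.sharp (μ * y l) + -(T.sharp (μ * y l) - aeval (fun s => T.sharp (z' s)) (f1 l)) := by
          ring
        change T.absK (aeval (fun s => T.sharp (z' s)) (f1 l)) ≤ δa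
        rw [h7]
        refine (T.ultraK _ _).trans (max_le ?_ ?_)
        · rw [T.abs_sharp]
          exact (hno l).trans (min_le_left _ _)
        · rw [AbsoluteValue.map_neg]
          exact (h5 l).trans hda)
    rw [eval_YY, map_prod] at h6
    have h7 : ∏ κ, T.absK (Sum.elim (fun s => T.sharp (z' s)) (0 : Fin (n + 1) → C)
        (Sum.inl ⟨κ, i κ⟩)) = 1 := by
      refine Finset.prod_eq_one fun κ _ => ?_
      rw [Sum.elim_inl, T.abs_sharp]
      exact hn.2 κ
    rw [h7] at h6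
    norm_num at h6
  have hyp : ∀ z : Sig m → F, Rel z → (∀ j, aeval z (H j) = 0) → ∃ i, ev (mp F (G i)) z 0 ≠ 0 := by
    intro z hz hz0
    by_contra hno
    push Not at hno
    obtain ⟨μ, z', i, hμ, hn, h3, h4, h5, l, hl⟩ := KEY hz (y := fun _ => 0) hz0 hno
    rw [mul_zero, map_zero] at hl
    exact absurd hl (not_lt.2 hc00.le)
  have hyl : ∀ {Q : MvPolynomial (Fin (n + 1)) E} {DQ : ℕ}, Q.IsHomogeneous DQ →
      ∀ (b : F) (x : Fin (n + 1) → F), aeval (fun i => b * x i) Q = b ^ DQ * aeval x Q := by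
    intro Q DQ hQ b x
    rw [aeval_eq, aeval_eq]
    exact eval_smul_of_homogeneous (hQ.map _) b x
  refine ⟨δb, hδb, Img F G H, img_cone hD hG hH hyp, img_dimGE hD hG hH hyp τ (fun j => ?_) hτ2
    hτ3, ?_, ?_⟩
  · rw [Pi.smul_apply, smul_eq_mul]
    exact Nat.mul_pos (pow_pos hp.out.pos _) (hτ1 j)
  · -- the tube
    rintro y hy k Bd hB
    change T.absK (aeval (fun i => T.sharp (y i)) (P k)) ≤ ε * Bd ^ DP k
    have hB0 : 0 ≤ Bd := (T.absF.nonneg _).trans (hB 0)
    rcases hy with rfl | ⟨z, hz, hz0, hzy⟩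
    · have h1 : (fun i => T.sharp ((0 : Fin (n + 1) → F) i)) = (0 : Fin (n + 1) → C) := by
        funext i
        exact T.toTiltPair.sharp_zero
      rw [h1, hPX k 0 (Or.inl rfl), map_zero]
      positivity
    · obtain ⟨μ, z', i, hμ, hn, h3, h4, h5, l, hl⟩ := KEY hz hz0 hzy
      have h6 := hs3' (k, i) (Sum.elim (fun s => T.sharp (z' s)) (fun l => T.sharp (μ * y l))) (by
        rintro (s | l)
        · rw [Sum.elim_inl, T.abs_sharp]
          exact hn.1 s
        · rw [Sum.elim_inr, T.abs_sharp]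
          exact h3 l) (by
        rintro (j | l)
        · rw [Sum.elim_inl, e1]
          exact (h4 j).trans (hdc.trans (hδc' (k, i)))
        · rw [Sum.elim_inr, map_sub, eval_X, e1]
          exact (h5 l).trans (hdc.trans (hδc' (k, i))))
      rw [map_mul, map_mul, eval_YY, map_prod, e2] at h6
      have h7 : ∏ κ, T.absK (Sum.elim (fun s => T.sharp (z' s)) (fun l => T.sharp (μ * y l))
          (Sum.inl ⟨κ, i κ⟩)) = 1 := by
        refine Finset.prod_eq_one fun κ _ => ?_
        rw [Sum.elim_inl, T.abs_sharp]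
        exact hn.2 κ
      rw [h7, mul_one] at h6
      have h8 : (fun l => Sum.elim (fun s => T.sharp (z' s)) (fun l => T.sharp (μ * y l))
          (Sum.inr l : Sig m ⊕ Fin (n + 1))) = fun l => T.sharp μ * T.sharp (y l) := by
        funext l
        rw [Sum.elim_inr, map_mul]
      rw [h8, hhom (hPD k), map_mul, map_pow, T.abs_sharp] at h6
      have hA : 0 < T.absF μ := T.absF.pos hμ
      have h9 : c0 ≤ T.absF μ * Bd := by
        refine hl.le.trans ?_
        rw [map_mul]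
        exact mul_le_mul_of_nonneg_left (hB l) hA.le
      have h10 : T.absF μ ^ DP k * T.absK (aeval (fun i => T.sharp (y i)) (P k)) ≤
          T.absF μ ^ DP k * (ε * Bd ^ DP k) := by
        refine h6.trans ?_
        calc ε * c0 ^ DP k ≤ ε * (T.absF μ * Bd) ^ DP k :=
              mul_le_mul_of_nonneg_left (pow_le_pow_left₀ hc00.le h9 _) hε.le
          _ = T.absF μ ^ DP k * (ε * Bd ^ DP k) := by rw [mul_pow]; ring
      exact le_of_mul_le_mul_left h10 (pow_pos hA _)
  · -- the upper bound for the dimension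
    intro g Dg hg hga y hy hgy
    rcases hy with rfl | ⟨z, hz, hz0, hzy⟩
    · rfl
    exfalso
    obtain ⟨μ, z', i, hμ, hn, h3, h4, h5, l, hl⟩ := KEY hz hz0 hzy
    have h6 := hs2' i (Sum.elim (fun s => T.sharp (z' s)) (fun l => T.sharp (μ * y l))) (by
      rintro (s | l)
      · rw [Sum.elim_inl, T.abs_sharp]
        exact hn.1 s
      · rw [Sum.elim_inr, T.abs_sharp]
        exact h3 l) (by
      rintro (j | l | j)
      · rw [Sum.elim_inl, e1]
        exact (h4 j).trans (hdb.trans (hδb' i))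
      · rw [Sum.elim_inr, Sum.elim_inl, map_sub, eval_X, e1]
        exact (h5 l).trans (hdb.trans (hδb' i))
      · rw [Sum.elim_inr, Sum.elim_inr, e2]
        refine le_trans ?_ (hδb' i)
        refine hga j (fun l => μ * y l) h3 ?_
        rw [hyl (hg j), hgy j, mul_zero])
    rw [eval_YY, map_prod] at h6
    have h7 : ∏ κ, T.absK (Sum.elim (fun s => T.sharp (z' s)) (fun l => T.sharp (μ * y l))
        (Sum.inl ⟨κ, i κ⟩)) = 1 := by
      refine Finset.prod_eq_one fun κ _ => ?_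
      rw [Sum.elim_inl, T.abs_sharp]
      exact hn.2 κ
    rw [h7] at h6
    norm_num at h6

end Pool.Agent.X271.TN
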