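import Pool.Agent.H88.L.X271.TmCore

/-!
# Images of multiprojective complete intersections over perfectoid fields
-/

set_option autoImplicit false
set_option linter.unusedSectionVars false

namespace Pool.Agent.X271.TN

open MvPolynomial Pool.Agent.W476.TP Pool.Agent.W356.TP
open Pool.Agent.Y129.TA (Tilting TiltPair DimGE DimLE IsForm)
open Pool.Agent.Y129.TB (BaseField IsConeOver InTube Approximable DimLEOver form_map approx)

variable {p : ℕ} [hp : Fact p.Prime] {C F K E : Type} [Field C] [Field F] [CharP F p] [Field K]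
  [Field E] [Algebra K C] [Algebra E F] {r n c : ℕ} {m : Fin r → ℕ}

theorem mh_of_multi {P : MvPolynomial (Crd m) K} {d : Fin r → ℕ} (h : MultiHom P d) :
    MH P d := by
  intro α hα
  have h1 := h α (mem_support_iff.2 hα)
  rw [Finsupp.weight_apply, Finsupp.sum_fintype _ _ (fun i => by exact zero_smul ℕ _)]
  funext κ
  rw [← h1 κ, Finset.sum_apply, Fintype.sum_sigma, Finset.sum_eq_single κ]
  · refine Finset.sum_congr rfl fun i _ => ?_
    simp [wt]
  · intro b _ hb
    refine Finset.sum_eq_zero fun i _ => ?_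
    simp [wt, Pi.single_eq_of_ne (Ne.symm hb)]
  · intro h
    exact absurd (Finset.mem_univ _) h

theorem mimage_eq (h : Fin c → MvPolynomial (Crd m) K) (f : Fin (n + 1) → MvPolynomial (Crd m) K) :
    mimage C h f = imX C h f := rfl

/-- `z - f` -/
noncomputable def lin (f : MvPolynomial (Sig m) K) : Polynomial (MvPolynomial (Sig m) K) :=
  Polynomial.X - Polynomial.C f

theorem lin_monic {f : MvPolynomial (Sig m) K} {D : Fin r → ℕ} (hf : MH f D) :
    MonicMH D (lin f) 1 := by
  refine ⟨one_pos, Polynomial.monic_X_sub_C f, Polynomial.natDegree_X_sub_C f, fun l hl => ?_⟩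
  unfold lin
  interval_cases l
  · rw [Polynomial.coeff_sub, Polynomial.coeff_X_zero, Polynomial.coeff_C_zero, zero_sub]
    have h1 := (isWeightedHomogeneous_C (wt m) (-1 : K)).mul hf
    rw [zero_add] at h1
    have e : MvPolynomial.C (-1 : K) * f = -f := by
      rw [map_neg, map_one, neg_one_mul]
    rw [e] at h1
    have h2 : MH (-f) D := h1
    simpa using h2
  · rw [Polynomial.coeff_sub, Polynomial.coeff_X_one, Polynomial.coeff_C_succ, sub_zero]
    have h1 := isWeightedHomogeneous_one K (wt m)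
    simpa [MH] using h1

theorem ev_lin (f : MvPolynomial (Sig m) K) (z : Sig m → C) (x : C) :
    ev (mp C (lin f)) z x = x - aeval z f := by
  rw [ev_mp]
  unfold lin
  rw [Polynomial.map_sub, Polynomial.map_X, Polynomial.map_C, Polynomial.eval_sub,
    Polynomial.eval_X, Polynomial.eval_C]
  rfl

theorem imX_eq (h : Fin c → MvPolynomial (Sig m) K) (f : Fin (n + 1) → MvPolynomial (Sig m) K) :
    imX C h f = Img C (fun i => lin (f i)) h := by
  ext x
  refine or_congr Iff.rfl (exists_congr fun z => and_congr Iff.rfl (and_congr Iff.rfl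
    (forall_congr' fun i => ?_)))
  rw [ev_lin, sub_eq_zero]

/-- **The main theorem.** -/
theorem main [IsAlgClosed C] [IsAlgClosed F] (T : Tilting p C F) (B : BaseField T K E)
    {d : ℕ} {h : Fin c → MvPolynomial (Crd m) K} {a : Fin c → Fin r → ℕ}
    {f : Fin (n + 1) → MvPolynomial (Crd m) K} {D : Fin r → ℕ}
    (hh : ∀ j, MultiHom (h j) (a j)) (hf : ∀ i, MultiHom (f i) D) (hD : D ≠ 0)
    (h0 : BaseFree C h f) (hpos : Positive m a D d) (hX : DimLEOver K (mimage C h f) d) :
    IsConeOver K (mimage C h f) ∧ DimGE (mimage C h f) d ∧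
      ∀ X : Set (Fin (n + 1) → C), mimage C h f ⊆ X → Approximable T.toTiltPair K E X d := by
  classical
  obtain ⟨τ, hτ1, hτ2, hτ3⟩ := hpos
  have hh' : ∀ j, MH (h j) (a j) := fun j => mh_of_multi (hh j)
  have hf' : ∀ i, MH (f i) D := fun i => mh_of_multi (hf i)
  have hyp : ∀ y : Sig m → C, Rel y → (∀ j, aeval y (h j) = 0) →
      ∃ i, ev (mp C (lin (f i))) y 0 ≠ 0 := by
    intro y hy hy0
    obtain ⟨i, hi⟩ := h0 y hy hy0
    refine ⟨i, ?_⟩
    rw [ev_lin, zero_sub]
    exact neg_ne_zero.2 hi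
  refine ⟨?_, ?_, fun X hXX R P DP hPD hPX ε hε => ?_⟩
  · rw [mimage_eq, imX_eq]
    exact img_cone hD (fun i => lin_monic (hf' i)) hh' hyp
  · rw [mimage_eq, imX_eq]
    exact img_dimGE hD (fun i => lin_monic (hf' i)) hh' hyp τ hτ1 hτ2 hτ3
  · obtain ⟨q, hq, hq0⟩ := hX
    obtain ⟨δ, hδ, Y, hY1, hY2, hY3, hY4⟩ := core T B hD hh' hf' h0 τ hτ1 hτ2 hτ3 q hq hq0 R P DP
      hPD (fun k x hx => hPX k x (hXX hx)) ε hε
    have a2 : ∀ j : Fin (d + 1), ∃ D, 0 < D ∧ ∃ g : MvPolynomial (Fin (n + 1)) E,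
        g.IsHomogeneous D ∧
        ∀ t : Fin (n + 1) → F, (∀ i, T.absF (t i) ≤ 1) → aeval t g = 0 →
          T.absK (aeval (fun i => T.sharp (t i)) (q j)) ≤ δ := by
      intro j
      obtain ⟨D, hD, hD'⟩ := hq j
      exact approx T B hD hD' hδ
    choose Dg hDg g hg hga using a2
    refine ⟨Y, hY1, hY2, ⟨fun j => MvPolynomial.map (algebraMap E F) (g j),
      fun j => form_map ⟨Dg j, hDg j, hg j⟩, fun y hy hgy => ?_⟩, hY3⟩
    refine hY4 g Dg hg hga y hy fun j => ?_
    rw [aeval_eq]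
    exact hgy j

end Pool.Agent.X271.TN
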